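import Pool.Agent.Helper5.KZ.Stm2
import Pool.Agent.Helper5.FJ.Loc

/-!
# Project KZ of helper5, piece GLUE (helper64)

`K0Triv` passes to retracts, and from the groups `PG i` to all torsionfree groups.
-/

set_option autoImplicit false

namespace Pool.Agent.Helper64.KZ

open Pool.Agent.Helper5.KZ Pool.Agent.Helper5.FJ

universe u v

theorem sf_map {R : Type u} {S : Type v} [Ring R] [Ring S] (f : R →+* S) {ι : Type} [Fintype ι]
    [DecidableEq ι] {e : Matrix ι ι R} (h : SF e) : SF (e.map f) := by
  obtain ⟨m, r, X, Y, h1, h2⟩ := h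
  refine ⟨m, r, X.map f, Y.map f, ?_, ?_⟩
  · rw [← Matrix.map_mul, h1, Matrix.fromBlocks_map]
    congr 1
    · exact Matrix.map_zero _ (map_zero f)
    · exact Matrix.map_zero _ (map_zero f)
    · exact Matrix.map_one _ (map_zero f) (map_one f)
  · rw [← Matrix.map_mul, h2]
    exact Matrix.map_one _ (map_zero f) (map_one f)

theorem k0_retract {R : Type u} {S : Type v} [Ring R] [Ring S] (f : R →+* S) (g : S →+* R)
    (h : ∀ x, g (f x) = x) (hS : K0Triv S) : K0Triv R := by
  intro n e he
  have h1 : e.map f * e.map f = e.map f := by rw [← Matrix.map_mul, he]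
  have h2 := sf_map g (hS n _ h1)
  have h3 : (e.map f).map g = e := by
    ext i j
    simp [h]
  rwa [h3] at h2

theorem mapDomain_retract (k : Type) [DivisionRing k] {G G' : Type} [Group G] [Group G'] (φ : G →* G')
    (ψ : G' →* G) (h : ∀ g, ψ (φ g) = g) (x : MonoidAlgebra k G) :
    MonoidAlgebra.mapDomainRingHom k ψ (MonoidAlgebra.mapDomainRingHom k φ x) = x := by
  have h1 : (MonoidAlgebra.mapDomainRingHom k ψ).comp (MonoidAlgebra.mapDomainRingHom k φ) =
      RingHom.id _ := by
    apply MonoidAlgebra.ringHom_ext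
    · intro r
      simp
    · intro g
      simp [h]
  exact RingHom.congr_fun h1 x

theorem k0_group (k : Type) [DivisionRing k] {G G' : Type} [Group G] [Group G'] (φ : G →* G')
    (ψ : G' →* G) (h : ∀ g, ψ (φ g) = g) (hS : K0Triv (MonoidAlgebra k G')) :
    K0Triv (MonoidAlgebra k G) :=
  k0_retract (MonoidAlgebra.mapDomainRingHom k φ) (MonoidAlgebra.mapDomainRingHom k ψ)
    (mapDomain_retract k φ ψ h) hS

theorem k0_equiv (k : Type) [DivisionRing k] {G G' : Type} [Group G] [Group G'] (φ : G ≃* G')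
    (hS : K0Triv (MonoidAlgebra k G')) : K0Triv (MonoidAlgebra k G) :=
  k0_group k φ.toMonoidHom φ.symm.toMonoidHom (fun g => φ.symm_apply_apply g) hS

/-- From the groups `PG i` to all torsionfree groups. -/
theorem k0_of_PG (k : Type) [DivisionRing k] (h : ∀ i : Pr, K0Triv (MonoidAlgebra k (PG i)))
    (G : Type) [Group G] (hG : TF G) : K0Triv (MonoidAlgebra k G) := by
  classical
  intro n e he
  let S : Finset G := Finset.univ.biUnion fun i => Finset.univ.biUnion fun j =>
    (e i j).coeff.support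
  let φ : FreeGroup (Fin S.card) →* G := FreeGroup.lift fun x => (S.equivFin.symm x : G)
  have hφ : ∀ x ∈ S, ∃ w, φ w = x := fun x hx =>
    ⟨FreeGroup.of (S.equivFin ⟨x, hx⟩), by simp [φ]⟩
  have hSA : ∀ i j, ∀ x ∈ (e i j).coeff.support, x ∈ S := fun i j x hx => by
    simp only [S, Finset.mem_biUnion, Finset.mem_univ, true_and]
    exact ⟨i, j, hx⟩
  have hA' : ∀ i j, ∃ y, MonoidAlgebra.mapDomain φ y = e i j := fun i j =>
    exists_lift_elt φ _ fun x hx => hφ x (hSA i j x hx)
  choose a ha using hA'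
  have hA2 : ind k φ (Fin n) (Matrix.of a) = e := by
    refine Matrix.ext fun i j => ?_
    simpa [ind] using ha i j
  set e' : Matrix (Fin n) (Fin n) (MonoidAlgebra k (FreeGroup (Fin S.card))) := Matrix.of a
  let r : Finset (FreeGroup (Fin S.card)) := (quots (e' * e' - e')).filter fun w => φ w = 1
  let j : Pr := ⟨S.card, r⟩
  let q : FreeGroup (Fin S.card) →* PG j := QuotientGroup.mk' _
  let p : PG j →* G := QuotientGroup.lift _ φ (tfc_le_ker φ hG fun w hw => by
    have hw' : w ∈ r := hw
    exact (Finset.mem_filter.1 hw').2)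
  have hpq : ∀ w, p (q w) = φ w := fun w => rfl
  have hq : ∀ w ∈ quots (e' * e' - e'), φ w = 1 ↔ q w = 1 := by
    intro w hw
    constructor
    · intro h1
      exact (QuotientGroup.eq_one_iff w).2 (subset_tfc _ (Finset.mem_coe.2
        (Finset.mem_filter.2 ⟨hw, h1⟩)))
    · intro h1
      rw [← hpq, h1, map_one]
  have h0 : ind k φ (Fin n) (e' * e' - e') = 0 := by
    rw [map_sub, map_mul, hA2, he, sub_self]
  have h1 : ind k q (Fin n) (e' * e' - e') = 0 := ind_eq_zero φ q _ hq h0
  rw [map_sub, map_mul, sub_eq_zero] at h1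
  have h2 := sf_map (MonoidAlgebra.mapDomainRingHom k p) (h j n _ h1)
  have h3 : (ind k q (Fin n) e').map (MonoidAlgebra.mapDomainRingHom k p) = e := by
    rw [← hA2]
    refine Matrix.ext fun i j => ?_
    simp only [ind, RingHom.mapMatrix_apply, Matrix.map_apply]
    have h4 : (MonoidAlgebra.mapDomainRingHom k p).comp (MonoidAlgebra.mapDomainRingHom k q) =
        MonoidAlgebra.mapDomainRingHom k φ := by
      apply MonoidAlgebra.ringHom_ext
      · intro r
        simp
      · intro g
        simp [hpq]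
    exact RingHom.congr_fun h4 _
  rwa [h3] at h2

theorem t_glue : S_GLUE := by
  intro hfree hcore k _ hH G _ hG
  have h1 : K0Triv (MonoidAlgebra k ga.range) :=
    k0_equiv k (MonoidHom.ofInjective ga_inj).symm (hfree k ℕ)
  have h2 : K0Triv (MonoidAlgebra k gb.range) :=
    k0_equiv k (MonoidHom.ofInjective gb_inj).symm (hfree k ℕ)
  have h3 : K0Triv (MonoidAlgebra k B₀) := hcore k B₀ ga.range gb.range phi h1 h2 hH
  exact k0_of_PG k (fun i => k0_group k Monoid.CoprodI.of (pr i) (pr_of i) h3) G hG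

end Pool.Agent.Helper64.KZ
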